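import Mathlib
import Pool.Agent.Helper565.QWi

namespace Pool.Agent.Y792.PI

open Matrix
open scoped ComplexOrder
open Pool.Agent.Results.MP_8bfff4_mp.ExactValue (Full evalAt full_bound)

/-- The completely positive map `X ↦ ∑ i, A i X (A i)†` with Kraus operators `A i`. -/
noncomputable def krausMap {D d : ℕ} (A : Fin d → Matrix (Fin D) (Fin D) ℂ)
    (X : Matrix (Fin D) (Fin D) ℂ) : Matrix (Fin D) (Fin D) ℂ :=
  ∑ i, A i * X * (A i)ᴴ

/-- `T` is a quantum channel on the `D × D` complex matrices: it has a Kraus form with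
`∑ i, (A i)† A i = 1`, for some number `d` of Kraus operators. -/
def IsChannel {D : ℕ} (T : Matrix (Fin D) (Fin D) ℂ → Matrix (Fin D) (Fin D) ℂ) : Prop :=
  ∃ (d : ℕ) (A : Fin d → Matrix (Fin D) (Fin D) ℂ),
    ∑ i, (A i)ᴴ * A i = 1 ∧ T = krausMap A

/-- `T^n` maps every nonzero positive semidefinite matrix to one of full rank. -/
def FullRankAt {D : ℕ} (T : Matrix (Fin D) (Fin D) ℂ → Matrix (Fin D) (Fin D) ℂ) (n : ℕ) : Prop :=
  ∀ ρ : Matrix (Fin D) (Fin D) ℂ, ρ.PosSemidef → ρ ≠ 0 → (T^[n] ρ).rank = D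

/-- `T` is a primitive quantum channel: it is a channel and for some `n` every nonzero
positive semidefinite `ρ` has `T^n ρ` of full rank `D`. -/
def IsPrimitive {D : ℕ} (T : Matrix (Fin D) (Fin D) ℂ → Matrix (Fin D) (Fin D) ℂ) : Prop :=
  IsChannel T ∧ ∃ n, FullRankAt T n

/-- The primitivity index: the least `n` such that `T^n ρ` has full rank for every nonzero
positive semidefinite `ρ`. -/
noncomputable def primitivityIndex {D : ℕ}
    (T : Matrix (Fin D) (Fin D) ℂ → Matrix (Fin D) (Fin D) ℂ) : ℕ :=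
  sInf {n | FullRankAt T n}

section general

variable {D d : ℕ}

lemma krausMap_psd (A : Fin d → Matrix (Fin D) (Fin D) ℂ) {X : Matrix (Fin D) (Fin D) ℂ}
    (hX : X.PosSemidef) : (krausMap A X).PosSemidef := by
  unfold krausMap
  apply Matrix.posSemidef_sum
  intro i _
  exact hX.mul_mul_conjTranspose_same (A i)

lemma krausMap_iter_psd (A : Fin d → Matrix (Fin D) (Fin D) ℂ) (n : ℕ)
    {X : Matrix (Fin D) (Fin D) ℂ}
    (hX : X.PosSemidef) : ((krausMap A)^[n] X).PosSemidef := by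
  induction n with
  | zero => simpa using hX
  | succ n ih => rw [Function.iterate_succ_apply']; exact krausMap_psd A ih

lemma krausMap_ker (A : Fin d → Matrix (Fin D) (Fin D) ℂ) {X : Matrix (Fin D) (Fin D) ℂ}
    (hX : X.PosSemidef) {v : Fin D → ℂ} (hv : krausMap A X *ᵥ v = 0) (i : Fin d) :
    X *ᵥ ((A i)ᴴ *ᵥ v) = 0 := by
  have h1 : star v ⬝ᵥ (krausMap A X *ᵥ v) = 0 := by rw [hv]; simp
  unfold krausMap at h1
  rw [Matrix.sum_mulVec, dotProduct_sum] at h1
  have h2 : ∀ j ∈ Finset.univ, 0 ≤ star v ⬝ᵥ ((A j * X * (A j)ᴴ) *ᵥ v) := by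
    intro j _
    exact (hX.mul_mul_conjTranspose_same (A j)).dotProduct_mulVec_nonneg v
  have h3 := (Finset.sum_eq_zero_iff_of_nonneg h2).1 h1 i (Finset.mem_univ i)
  have h4 : star ((A i)ᴴ *ᵥ v) ⬝ᵥ (X *ᵥ ((A i)ᴴ *ᵥ v)) = 0 := by
    rw [← h3]
    rw [Matrix.star_mulVec, conjTranspose_conjTranspose, ← Matrix.dotProduct_mulVec,
      Matrix.mulVec_mulVec, Matrix.mulVec_mulVec, Matrix.mul_assoc]
  exact (hX.dotProduct_mulVec_zero_iff _).1 h4

lemma rank_eq_iff (X : Matrix (Fin D) (Fin D) ℂ) :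
    X.rank = D ↔ ∀ v : Fin D → ℂ, X *ᵥ v = 0 → v = 0 := by
  have h1 := LinearMap.finrank_range_add_finrank_ker X.mulVecLin
  rw [Module.finrank_fin_fun] at h1
  have h2 : X.rank = Module.finrank ℂ (LinearMap.range X.mulVecLin) := rfl
  constructor
  · intro h v hv
    have h3 : Module.finrank ℂ (LinearMap.ker X.mulVecLin) = 0 := by omega
    rw [Submodule.finrank_eq_zero] at h3
    have : v ∈ LinearMap.ker X.mulVecLin := by simpa [LinearMap.mem_ker] using hv
    rw [h3] at this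
    simpa using this
  · intro h
    have h3 : LinearMap.ker X.mulVecLin = ⊥ := by
      rw [LinearMap.ker_eq_bot']
      intro v hv
      exact h v (by simpa using hv)
    rw [h3, finrank_bot] at h1
    omega

lemma krausMap_add (A : Fin d → Matrix (Fin D) (Fin D) ℂ) (X Y : Matrix (Fin D) (Fin D) ℂ) :
    krausMap A (X + Y) = krausMap A X + krausMap A Y := by
  simp [krausMap, Matrix.mul_add, Matrix.add_mul, Finset.sum_add_distrib]

lemma krausMap_smul (A : Fin d → Matrix (Fin D) (Fin D) ℂ) (c : ℂ)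
    (X : Matrix (Fin D) (Fin D) ℂ) :
    krausMap A (c • X) = c • krausMap A X := by
  simp [krausMap, Finset.smul_sum]

lemma krausMap_trace (A : Fin d → Matrix (Fin D) (Fin D) ℂ) (hA : ∑ i, (A i)ᴴ * A i = 1)
    (X : Matrix (Fin D) (Fin D) ℂ) : (krausMap A X).trace = X.trace := by
  unfold krausMap
  rw [Matrix.trace_sum]
  have : ∀ i, (A i * X * (A i)ᴴ).trace = ((A i)ᴴ * A i * X).trace := by
    intro i
    rw [Matrix.trace_mul_comm, ← Matrix.mul_assoc]
  rw [Finset.sum_congr rfl (fun i _ => this i), ← Matrix.trace_sum, ← Finset.sum_mul, hA,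
    Matrix.one_mul]

lemma krausMap_ne_zero (A : Fin d → Matrix (Fin D) (Fin D) ℂ) (hA : ∑ i, (A i)ᴴ * A i = 1)
    {X : Matrix (Fin D) (Fin D) ℂ} (hX : X.PosSemidef) (h0 : X ≠ 0) : krausMap A X ≠ 0 := by
  intro h
  apply h0
  rw [← hX.trace_eq_zero_iff, ← krausMap_trace A hA X, h, Matrix.trace_zero]

lemma FullRankAt.mono {T : Matrix (Fin D) (Fin D) ℂ → Matrix (Fin D) (Fin D) ℂ}
    (hT : IsChannel T) {n m : ℕ} (hnm : n ≤ m) (h : FullRankAt T n) : FullRankAt T m := by
  obtain ⟨d, A, hA, rfl⟩ := hT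
  induction m, hnm using Nat.le_induction with
  | base => exact h
  | succ m _ ih =>
    intro ρ hρ h0
    rw [Function.iterate_succ_apply]
    exact ih _ (krausMap_psd A hρ) (krausMap_ne_zero A hA hρ h0)

lemma primitivityIndex_eq {T : Matrix (Fin D) (Fin D) ℂ → Matrix (Fin D) (Fin D) ℂ}
    (hT : IsChannel T) {n : ℕ} (h1 : FullRankAt T (n+1)) (h2 : ¬ FullRankAt T n) :
    IsPrimitive T ∧ primitivityIndex T = n + 1 := by
  refine ⟨⟨hT, _, h1⟩, le_antisymm (Nat.sInf_le h1) ?_⟩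
  by_contra h
  push Not at h
  have h3 : FullRankAt T (primitivityIndex T) := Nat.sInf_mem (s := {n | FullRankAt T n}) ⟨_, h1⟩
  exact h2 (FullRankAt.mono hT (by omega) h3)

end general


section bridge

variable {D d : ℕ}

/-- the operators `C` with `ρ C† v = 0` -/
def annih (ρ : Matrix (Fin D) (Fin D) ℂ) (v : Fin D → ℂ) :
    Submodule ℂ (Matrix (Fin D) (Fin D) ℂ) where
  carrier := {C | ρ *ᵥ (Cᴴ *ᵥ v) = 0}
  zero_mem' := by simp
  add_mem' := by
    intro x y hx hy
    simp only [Set.mem_ofPred_eq] at *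
    rw [conjTranspose_add, Matrix.add_mulVec, Matrix.mulVec_add, hx, hy, add_zero]
  smul_mem' := by
    intro c x hx
    simp only [Set.mem_ofPred_eq] at *
    rw [conjTranspose_smul, Matrix.smul_mulVec, Matrix.mulVec_smul, hx, smul_zero]

lemma mem_annih {ρ : Matrix (Fin D) (Fin D) ℂ} {v : Fin D → ℂ} {C : Matrix (Fin D) (Fin D) ℂ} :
    C ∈ annih ρ v ↔ ρ *ᵥ (Cᴴ *ᵥ v) = 0 := Iff.rfl

lemma iter_ker_iff (A : Fin d → Matrix (Fin D) (Fin D) ℂ) {ρ : Matrix (Fin D) (Fin D) ℂ}
    (hρ : ρ.PosSemidef) (n : ℕ) (v : Fin D → ℂ) :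
    ((krausMap A)^[n] ρ) *ᵥ v = 0 ↔
      (Submodule.span ℂ (Set.range A)) ^ n ≤ annih ρ v := by
  induction n generalizing v with
  | zero =>
    rw [pow_zero, Submodule.one_le, mem_annih, conjTranspose_one, Matrix.one_mulVec]
    rfl
  | succ n ih =>
    rw [Function.iterate_succ_apply']
    have hX := krausMap_iter_psd A n hρ
    have h1 : krausMap A ((krausMap A)^[n] ρ) *ᵥ v = 0 ↔
        ∀ i, ((krausMap A)^[n] ρ) *ᵥ ((A i)ᴴ *ᵥ v) = 0 := by
      constructor
      · intro h i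
        exact krausMap_ker A hX h i
      · intro h
        unfold krausMap at *
        rw [Matrix.sum_mulVec]
        apply Finset.sum_eq_zero
        intro i _
        rw [← Matrix.mulVec_mulVec, ← Matrix.mulVec_mulVec, h i, Matrix.mulVec_zero]
    rw [h1, pow_succ', Submodule.mul_le]
    simp only [ih]
    constructor
    · intro h M hM C hC
      have h2 : Submodule.span ℂ (Set.range A) ≤ (annih ρ v).comap (LinearMap.mulRight ℂ C) := by
        rw [Submodule.span_le]
        rintro _ ⟨i, rfl⟩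
        have h3 := h i hC
        rw [mem_annih] at h3
        rw [SetLike.mem_coe, Submodule.mem_comap, LinearMap.mulRight_apply, mem_annih,
          conjTranspose_mul, ← Matrix.mulVec_mulVec]
        exact h3
      exact h2 hM
    · intro h i C hC
      have h3 := h (A i) (Submodule.subset_span ⟨i, rfl⟩) C hC
      rw [mem_annih, conjTranspose_mul, ← Matrix.mulVec_mulVec] at h3
      exact h3

lemma fullRankAt_iff (A : Fin d → Matrix (Fin D) (Fin D) ℂ) (n : ℕ) :
    FullRankAt (krausMap A) n ↔ Full ((Submodule.span ℂ (Set.range A)) ^ n) := by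
  constructor
  · intro h ψ hψ v
    by_contra hcon
    push Not at hcon
    have h1 : v ∉ LinearMap.range (evalAt ((Submodule.span ℂ (Set.range A)) ^ n) ψ) := by
      rintro ⟨C, hC⟩
      exact hcon C.1 C.2 hC
    obtain ⟨f, hf1, hf2⟩ := Submodule.exists_le_ker_of_notMem h1
    have hf : ∀ w : Fin D → ℂ, (fun i => f (Pi.single i 1)) ⬝ᵥ w = f w := by
      intro w
      conv_rhs => rw [pi_eq_sum_univ' w]
      rw [map_sum]
      simp only [dotProduct]
      apply Finset.sum_congr rfl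
      intro i _
      rw [map_smul, smul_eq_mul, mul_comm]
    let g : Fin D → ℂ := fun i => f (Pi.single i 1)
    have hg : star g ≠ 0 := by
      intro h0
      apply hf1
      have : g = 0 := by rw [← star_star g, h0, star_zero]
      rw [← hf v]
      show g ⬝ᵥ v = 0
      rw [this, zero_dotProduct]
    have hpsd : (vecMulVec ψ (star ψ)).PosSemidef := Matrix.posSemidef_vecMulVec_self_star ψ
    have hne : vecMulVec ψ (star ψ) ≠ 0 := vecMulVec_ne_zero hψ (by
      intro h0; apply hψ; rw [← star_star ψ, h0, star_zero])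
    have h2 := h _ hpsd hne
    rw [rank_eq_iff] at h2
    apply hg
    apply h2
    rw [iter_ker_iff A hpsd]
    intro C hC
    rw [mem_annih, vecMulVec_mulVec]
    have h3 : star ψ ⬝ᵥ Cᴴ *ᵥ star g = 0 := by
      have h4 : f (C *ᵥ ψ) = 0 := hf2 ⟨⟨C, hC⟩, rfl⟩
      rw [← hf] at h4
      have h5 : star (g ⬝ᵥ (C *ᵥ ψ)) = 0 := by
        show star ((fun i => f (Pi.single i 1)) ⬝ᵥ (C *ᵥ ψ)) = 0
        rw [h4, star_zero]
      rw [← Matrix.star_dotProduct_star, Matrix.star_mulVec, ← Matrix.dotProduct_mulVec] at h5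
      exact h5
    rw [h3]
    simp
  · intro h ρ hρ h0
    rw [rank_eq_iff]
    intro v hv
    rw [iter_ker_iff A hρ] at hv
    obtain ⟨y, hy⟩ : ∃ y, ρ *ᵥ y ≠ 0 := by
      by_contra hcon
      push Not at hcon
      apply h0
      apply Matrix.ext_of_mulVec_single
      intro i
      rw [hcon, Matrix.zero_mulVec]
    obtain ⟨C, hC, hCv⟩ := h _ hy v
    have h1 := hv hC
    rw [mem_annih] at h1
    have h2 : star (ρ *ᵥ y) ⬝ᵥ (Cᴴ *ᵥ v) = 0 := by
      rw [Matrix.star_mulVec, hρ.1, ← Matrix.dotProduct_mulVec, h1, dotProduct_zero]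
    have h3 : star v ⬝ᵥ v = 0 := by
      conv_lhs => rw [← hCv]
      rw [Matrix.star_mulVec, ← Matrix.dotProduct_mulVec, hCv]
      exact h2
    exact dotProduct_star_self_eq_zero.1 h3

/-- the upper bound -/
lemma index_le {T : Matrix (Fin D) (Fin D) ℂ → Matrix (Fin D) (Fin D) ℂ} (hD : 2 ≤ D)
    (hT : IsPrimitive T) : primitivityIndex T ≤ D * D - D + 1 := by
  obtain ⟨⟨d, A, -, rfl⟩, n, hn⟩ := hT
  apply Nat.sInf_le
  exact (fullRankAt_iff A _).2 (full_bound hD ((fullRankAt_iff A n).1 hn))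

end bridge


end Pool.Agent.Y792.PI
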