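import Pool.Agent.Y792.PI.Base

/-!
# Primitive channels with every index above the classical bound

Dimension `D = k + 2`. The channel `T k a`, `2 ≤ a ≤ k + 2`, has the Kraus operators
`SL : e_j ↦ e_{j+1}` for `j + 1 < a`, `SH : e_j ↦ e_{j+1}` for `a ≤ j + 1 ≤ k + 1` and
`B : e_{k+1} ↦ (e_0 + e_1) / √2`. Its primitivity index is `(k + 1) ^ 2 + a`.
-/

namespace Pool.Agent.Y792.PI

open Matrix
open scoped ComplexOrder

namespace Split

section concrete

variable (k a : ℕ)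

/-- the low part of the shift -/
def SL : Matrix (Fin (k+2)) (Fin (k+2)) ℂ :=
  fun i j => if (i:ℕ) = j + 1 then (if (j:ℕ) + 1 < a then 1 else 0) else 0

/-- the high part of the shift -/
def SH : Matrix (Fin (k+2)) (Fin (k+2)) ℂ :=
  fun i j => if (i:ℕ) = j + 1 then (if (j:ℕ) + 1 < a then 0 else 1) else 0

/-- the jump `e_{D-1} ↦ (e_0+e_1)/√2` -/
noncomputable def B : Matrix (Fin (k+2)) (Fin (k+2)) ℂ :=
  fun i j => if (i:ℕ) ≤ 1 ∧ (j:ℕ) = k + 1 then ((Real.sqrt 2 : ℝ) : ℂ)⁻¹ else 0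

/-- the Kraus operators -/
noncomputable def K : Fin 3 → Matrix (Fin (k+2)) (Fin (k+2)) ℂ := ![SL k a, SH k a, B k]

/-- the channel -/
noncomputable def T : Matrix (Fin (k+2)) (Fin (k+2)) ℂ → Matrix (Fin (k+2)) (Fin (k+2)) ℂ :=
  krausMap (K k a)

/-- `e_a` (zero if `a ≥ D`) -/
def e (a : ℕ) : Fin (k+2) → ℂ := fun i => if (i:ℕ) = a then 1 else 0

variable {k} in
/-- extension of a vector by zero -/
def ext (v : Fin (k+2) → ℂ) (n : ℕ) : ℂ := if h : n < k + 2 then v ⟨n, h⟩ else 0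

lemma sqrt_two_sq : ((Real.sqrt 2 : ℝ) : ℂ) * ((Real.sqrt 2 : ℝ) : ℂ) = 2 := by
  rw [← Complex.ofReal_mul, Real.mul_self_sqrt (by norm_num)]; norm_num

lemma star_sqrt : star (((Real.sqrt 2 : ℝ) : ℂ)⁻¹) = (((Real.sqrt 2 : ℝ) : ℂ)⁻¹) := by
  rw [star_inv₀]; congr 1; exact Complex.conj_ofReal _

lemma sqrt_ne : ((Real.sqrt 2 : ℝ) : ℂ) ≠ 0 := by
  have h2 := sqrt_two_sq
  intro h; rw [h] at h2; norm_num at h2

lemma sum_le_one (k : ℕ) (c : ℂ) :
    ∑ i : Fin (k+2), (if (i:ℕ) ≤ 1 then c else 0) = 2 * c := by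
  rw [Fin.sum_univ_succ, Fin.sum_univ_succ]
  simp [two_mul]

lemma sum_shift (k : ℕ) (j : Fin (k+2)) (f : Fin (k+2) → ℂ) :
    ∑ i : Fin (k+2), (if (i:ℕ) = (j:ℕ) + 1 then f i else 0) = ext f ((j:ℕ) + 1) := by
  unfold ext
  split_ifs with h
  · rw [Finset.sum_eq_single (⟨(j:ℕ)+1, h⟩ : Fin (k+2))]
    · simp
    · intro b _ hb
      rw [if_neg]
      intro h'
      exact hb (Fin.ext h')
    · intro h'; exact absurd (Finset.mem_univ _) h'
  · apply Finset.sum_eq_zero
    intro i _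
    rw [if_neg]
    have := i.2
    omega

lemma K_norm : ∑ i, (K k a i)ᴴ * K k a i = 1 := by
  rw [Fin.sum_univ_three]
  have h2 := sqrt_two_sq
  ext i j
  simp only [K, Matrix.cons_val_zero, Matrix.cons_val_one, Matrix.cons_val_two, Matrix.tail_cons,
    Matrix.head_cons, Matrix.add_apply, Matrix.mul_apply,
    Matrix.conjTranspose_apply, SL, SH, B]
  have e0 : ∀ x : Fin (k+2), star (if (x:ℕ) = (i:ℕ) + 1 then (if (i:ℕ) + 1 < a then (1:ℂ) else 0) else 0) *
      (if (x:ℕ) = (j:ℕ) + 1 then (if (j:ℕ) + 1 < a then (1:ℂ) else 0) else 0)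
      = if (x:ℕ) = (i:ℕ) + 1 then (if (i:ℕ) = j ∧ (i:ℕ) + 1 < a then (1:ℂ) else 0) else 0 := by
    intro x
    by_cases hx : (x:ℕ) = (i:ℕ) + 1
    · by_cases hij : (i:ℕ) = j
      · by_cases hi : (i:ℕ) + 1 < a
        · simp [hx, hi, ← hij]
        · simp [hx, hi, ← hij]
      · simp [hx, hij]
    · simp [hx]
  have e1 : ∀ x : Fin (k+2), star (if (x:ℕ) = (i:ℕ) + 1 then (if (i:ℕ) + 1 < a then (0:ℂ) else 1) else 0) *
      (if (x:ℕ) = (j:ℕ) + 1 then (if (j:ℕ) + 1 < a then (0:ℂ) else 1) else 0)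
      = if (x:ℕ) = (i:ℕ) + 1 then (if (i:ℕ) = j ∧ ¬ (i:ℕ) + 1 < a then (1:ℂ) else 0) else 0 := by
    intro x
    by_cases hx : (x:ℕ) = (i:ℕ) + 1
    · by_cases hij : (i:ℕ) = j
      · by_cases hi : (i:ℕ) + 1 < a
        · simp [hx, hi, ← hij]
        · simp [hx, hi, ← hij]
      · simp [hx, hij]
    · simp [hx]
  have e2 : ∀ x : Fin (k+2), star (if (x:ℕ) ≤ 1 ∧ (i:ℕ) = k + 1 then ((Real.sqrt 2 : ℝ) : ℂ)⁻¹ else 0) *
      (if (x:ℕ) ≤ 1 ∧ (j:ℕ) = k + 1 then ((Real.sqrt 2 : ℝ) : ℂ)⁻¹ else 0)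
      = if (x:ℕ) ≤ 1 then (if (i:ℕ) = k+1 ∧ (j:ℕ) = k+1 then (2:ℂ)⁻¹ else 0) else 0 := by
    intro x
    by_cases hx : (x:ℕ) ≤ 1 <;> by_cases hi : (i:ℕ) = k+1 <;> by_cases hj : (j:ℕ) = k+1 <;>
      simp only [hx, hi, hj, and_false, and_true, if_true, if_false, star_zero,
        mul_zero, zero_mul, star_sqrt]
    rw [← mul_inv, h2]
  rw [Finset.sum_congr rfl (fun x _ => e0 x), Finset.sum_congr rfl (fun x _ => e1 x),
    Finset.sum_congr rfl (fun x _ => e2 x),
    sum_shift k i (fun _ => (if (i:ℕ) = j ∧ (i:ℕ) + 1 < a then (1:ℂ) else 0)),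
    sum_shift k i (fun _ => (if (i:ℕ) = j ∧ ¬ (i:ℕ) + 1 < a then (1:ℂ) else 0)), sum_le_one]
  have hi := i.2
  have hj := j.2
  unfold ext
  by_cases hij : i = j
  · subst hij
    simp only [Matrix.one_apply_eq]
    by_cases h : (i:ℕ) + 1 < k + 2
    · rw [dif_pos h, dif_pos h, if_neg (c := (i:ℕ) = k + 1 ∧ (i:ℕ) = k + 1) (by omega)]
      by_cases hia : (i:ℕ) + 1 < a <;> simp [hia]
    · rw [dif_neg h, dif_neg h, if_pos (by omega)]; norm_num
  · have hij' : (i:ℕ) ≠ j := fun h => hij (Fin.ext h)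
    rw [Matrix.one_apply_ne hij, if_neg (c := (i:ℕ) = j ∧ (i:ℕ) + 1 < a) (by tauto),
      if_neg (c := (i:ℕ) = j ∧ ¬ (i:ℕ) + 1 < a) (by tauto), if_neg (by omega)]
    simp

lemma T_isChannel : IsChannel (T k a) := ⟨3, K k a, K_norm k a, rfl⟩

lemma SL_ct_mulVec (v : Fin (k+2) → ℂ) (i : Fin (k+2)) :
    ((SL k a)ᴴ *ᵥ v) i = if (i:ℕ) + 1 < a then ext v ((i:ℕ) + 1) else 0 := by
  simp only [Matrix.mulVec, dotProduct, Matrix.conjTranspose_apply, SL]
  rw [← sum_shift]
  split_ifs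
  · apply Finset.sum_congr rfl
    intro x _
    split_ifs <;> simp
  · apply Finset.sum_eq_zero
    intro x _
    simp

lemma SH_ct_mulVec (v : Fin (k+2) → ℂ) (i : Fin (k+2)) :
    ((SH k a)ᴴ *ᵥ v) i = if (i:ℕ) + 1 < a then 0 else ext v ((i:ℕ) + 1) := by
  simp only [Matrix.mulVec, dotProduct, Matrix.conjTranspose_apply, SH]
  rw [← sum_shift]
  split_ifs
  · apply Finset.sum_eq_zero
    intro x _
    simp
  · apply Finset.sum_congr rfl
    intro x _
    split_ifs <;> simp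

lemma B_ct_mulVec (v : Fin (k+2) → ℂ) :
    (B k)ᴴ *ᵥ v = (((Real.sqrt 2 : ℝ) : ℂ)⁻¹ * (v 0 + v 1)) • e k (k+1) := by
  have h3 := star_sqrt
  ext i
  simp only [Matrix.mulVec, dotProduct, Matrix.conjTranspose_apply, B, Pi.smul_apply, smul_eq_mul, e]
  by_cases hi : (i:ℕ) = k+1
  · simp only [hi, and_true, if_true, mul_one]
    rw [Fin.sum_univ_succ, Fin.sum_univ_succ]
    have : ∑ x : Fin k, star (if ((x.succ.succ : Fin (k+2)) : ℕ) ≤ 1 then ((Real.sqrt 2 : ℝ) : ℂ)⁻¹ else 0)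
        * v x.succ.succ = 0 := by
      apply Finset.sum_eq_zero
      intro x _
      rw [if_neg (by simp)]
      simp
    rw [this]
    simp [h3, mul_add]
  · simp [hi]

/-- kernel predicate -/
def P (ρ : Matrix (Fin (k+2)) (Fin (k+2)) ℂ) (n : ℕ) (v : Fin (k+2) → ℂ) : Prop :=
  ((T k a)^[n] ρ) *ᵥ v = 0

section
variable {k a}
variable {ρ : Matrix (Fin (k+2)) (Fin (k+2)) ℂ} (hρ : ρ.PosSemidef)
include hρ

lemma P_SL {n : ℕ} {v : Fin (k+2) → ℂ} (h : P k a ρ (n+1) v) : P k a ρ n ((SL k a)ᴴ *ᵥ v) := by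
  unfold P at *
  rw [Function.iterate_succ_apply'] at h
  exact krausMap_ker (K k a) (krausMap_iter_psd _ n hρ) h 0

lemma P_SH {n : ℕ} {v : Fin (k+2) → ℂ} (h : P k a ρ (n+1) v) : P k a ρ n ((SH k a)ᴴ *ᵥ v) := by
  unfold P at *
  rw [Function.iterate_succ_apply'] at h
  exact krausMap_ker (K k a) (krausMap_iter_psd _ n hρ) h 1

lemma P_B {n : ℕ} {v : Fin (k+2) → ℂ} (h : P k a ρ (n+1) v) (h0 : v 0 + v 1 ≠ 0) :
    P k a ρ n (e k (k+1)) := by
  unfold P at *
  rw [Function.iterate_succ_apply'] at h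
  have h1 : ((T k a)^[n] ρ) *ᵥ ((B k)ᴴ *ᵥ v) = 0 :=
    krausMap_ker (K k a) (krausMap_iter_psd _ n hρ) h 2
  rw [B_ct_mulVec, Matrix.mulVec_smul, smul_eq_zero] at h1
  rcases h1 with h1 | h1
  · exfalso
    rcases mul_eq_zero.1 h1 with h3 | h3
    · exact sqrt_ne (inv_eq_zero.1 h3)
    · exact h0 h3
  · exact h1

lemma P_e_step {n i : ℕ} (hi : i + 1 < k + 2) (h : P k a ρ (n+1) (e k (i+1))) :
    P k a ρ n (e k i) := by
  by_cases hia : i + 1 < a
  · have h1 := P_SL hρ h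
    have h2 : (SL k a)ᴴ *ᵥ e k (i+1) = e k i := by
      ext j
      rw [SL_ct_mulVec]
      simp only [e, ext]
      split_ifs <;> first | rfl | omega
    rwa [h2] at h1
  · have h1 := P_SH hρ h
    have h2 : (SH k a)ᴴ *ᵥ e k (i+1) = e k i := by
      ext j
      rw [SH_ct_mulVec]
      simp only [e, ext]
      split_ifs <;> first | rfl | omega
    rwa [h2] at h1

lemma P_e_iter {n i j : ℕ} (hij : i + j < k + 2) (h : P k a ρ (n+j) (e k (i+j))) :
    P k a ρ n (e k i) := by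
  induction j with
  | zero => simpa using h
  | succ j ih =>
    apply ih (by omega)
    exact P_e_step hρ (by omega) h

lemma P_e_zero {n : ℕ} (h : P k a ρ (n+1) (e k 0)) : P k a ρ n (e k (k+1)) := by
  apply P_B hρ h
  simp [e]

lemma P_e_one {n : ℕ} (h : P k a ρ (n+1) (e k 1)) : P k a ρ n (e k (k+1)) := by
  apply P_B hρ h
  simp [e]

lemma P_cycle1 {n : ℕ} (h : P k a ρ (n+(k+1)) (e k (k+1))) : P k a ρ n (e k (k+1)) := by
  apply P_e_one hρ
  apply P_e_iter hρ (j := k) (by omega)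
  rw [show n + 1 + k = n + (k+1) by ring, show 1 + k = k + 1 by ring]
  exact h

lemma P_cycle2 {n : ℕ} (h : P k a ρ (n+(k+2)) (e k (k+1))) : P k a ρ n (e k (k+1)) := by
  apply P_e_zero hρ
  apply P_e_iter hρ (j := k+1) (by omega)
  rw [show n + 1 + (k+1) = n + (k+2) by ring, show 0 + (k+1) = k + 1 by ring]
  exact h

lemma P_cycles {n p q : ℕ} (h : P k a ρ (n+(p*(k+1)+q*(k+2))) (e k (k+1))) :
    P k a ρ n (e k (k+1)) := by
  induction p with
  | zero =>
    induction q with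
    | zero => simpa using h
    | succ q ih =>
      apply ih
      apply P_cycle2 hρ
      rw [show n + (0 * (k+1) + q * (k+2)) + (k+2) = n + (0 * (k+1) + (q+1) * (k+2)) by ring]
      exact h
  | succ p ih =>
    apply ih
    apply P_cycle1 hρ
    rw [show n + (p * (k+1) + q * (k+2)) + (k+1) = n + ((p+1) * (k+1) + q * (k+2)) by ring]
    exact h

omit hρ in
lemma zero_of_all (h : ∀ i : ℕ, i < k + 2 → P k a ρ 0 (e k i)) : ρ = 0 := by
  ext i j
  have := h j j.2
  unfold P at this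
  simp only [Function.iterate_zero, id_eq] at this
  have h5 := congrFun this i
  simp only [Matrix.mulVec, dotProduct, e, Pi.zero_apply] at h5
  rw [Finset.sum_eq_single j] at h5
  · simpa using h5
  · intro b _ hb
    rw [if_neg (fun h => hb (Fin.ext h))]; simp
  · intro h; exact absurd (Finset.mem_univ _) h

/-- from `e_{D-1}` at a representable time to `e_i` at time zero -/
lemma P_reach {i p q : ℕ} (hi : i < k + 2)
    (h : P k a ρ ((k + 1 - i) + (p*(k+1)+q*(k+2))) (e k (k+1))) : P k a ρ 0 (e k i) := by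
  have h1 := P_cycles hρ h
  apply P_e_iter hρ (j := k + 1 - i) (by omega)
  rw [zero_add, show i + (k + 1 - i) = k + 1 by omega]
  exact h1

end

lemma exists_rep (m : ℕ) (hm : k * (k+1) ≤ m) : ∃ p q, m = p*(k+1) + q*(k+2) := by
  have h1 := Nat.div_add_mod m (k+1)
  have h2 := Nat.mod_lt m (Nat.succ_pos k)
  set t := m / (k+1) with ht
  set q := m % (k+1) with hq
  have h3 : k ≤ t := by
    rw [ht, Nat.le_div_iff_mul_le (Nat.succ_pos k)]
    exact hm
  obtain ⟨p, hp⟩ : ∃ p, t = p + q := ⟨t - q, by omega⟩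
  refine ⟨p, q, ?_⟩
  rw [← h1, hp]; ring

lemma exists_rep2 (l m : ℕ) (hm : l * (l+2) ≤ m) :
    (∃ p q, m = p*(l+1+1) + q*(l+1+2)) ∨ (∃ p q, m = p*(l+1+1) + q*(l+1+2) + 1) := by
  have h1 := Nat.div_add_mod m (l+2)
  have h2 := Nat.mod_lt m (show 0 < l + 2 by omega)
  set t := m / (l+2) with ht
  set q := m % (l+2) with hq
  have h3 : l ≤ t := by
    rw [ht, Nat.le_div_iff_mul_le (by omega)]
    exact hm
  by_cases hqt : q ≤ t
  · left
    obtain ⟨p, hp⟩ : ∃ p, t = p + q := ⟨t - q, by omega⟩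
    refine ⟨p, q, ?_⟩
    rw [← h1, hp]; ring
  · right
    have h4 : t = l := by omega
    have h5 : q = l + 1 := by omega
    refine ⟨0, l, ?_⟩
    rw [← h1, h4, h5]; ring

lemma exists_last {v : Fin (k+2) → ℂ} (hv : v ≠ 0) :
    ∃ a : Fin (k+2), v a ≠ 0 ∧ ∀ b, a < b → v b = 0 := by
  classical
  obtain ⟨i, hi⟩ := Function.ne_iff.1 hv
  let s : Finset (Fin (k+2)) := Finset.univ.filter (fun j => v j ≠ 0)
  have hs : s.Nonempty := ⟨i, by simpa [s] using hi⟩
  refine ⟨s.max' hs, ?_, ?_⟩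
  · have := s.max'_mem hs
    simpa [s] using this
  · intro b hb
    by_contra h
    have : b ≤ s.max' hs := s.le_max' b (by simpa [s] using h)
    exact absurd hb (not_lt.2 this)

end concrete

section upper

variable {k a : ℕ} {ρ : Matrix (Fin (k+2)) (Fin (k+2)) ℂ} (hρ : ρ.PosSemidef)
include hρ

lemma P_SL_iter {n b : ℕ} {v : Fin (k+2) → ℂ} (h : P k a ρ (n+b) v) :
    P k a ρ n ((fun w => (SL k a)ᴴ *ᵥ w)^[b] v) := by
  induction b generalizing v with
  | zero => simpa using h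
  | succ b ih =>
    rw [Function.iterate_succ_apply]
    exact ih (P_SL hρ h)

lemma P_SH_iter {n b : ℕ} {v : Fin (k+2) → ℂ} (h : P k a ρ (n+b) v) :
    P k a ρ n ((fun w => (SH k a)ᴴ *ᵥ w)^[b] v) := by
  induction b generalizing v with
  | zero => simpa using h
  | succ b ih =>
    rw [Function.iterate_succ_apply]
    exact ih (P_SH hρ h)

/-- one visit of `e_{D-1}` early enough -/
lemma zero_of_one {M : ℕ} (hM : (k+1)*(k+1) ≤ M) (h : P k a ρ M (e k (k+1))) : ρ = 0 := by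
  apply zero_of_all (a := a)
  intro i hi
  have e1 : (k+1)*(k+1) = k*(k+1) + (k+1) := by ring
  obtain ⟨p, q, hpq⟩ := exists_rep k (M - (k+1-i)) (by omega)
  apply P_reach hρ (p := p) (q := q) hi
  rw [← hpq, show k + 1 - i + (M - (k+1-i)) = M by omega]
  exact h

/-- two consecutive visits of `e_{D-1}` -/
lemma zero_of_two {M : ℕ} (hk : 1 ≤ k) (hM : k*(k+1) + 1 ≤ M + 1)
    (h1 : P k a ρ (M+1) (e k (k+1))) (h2 : P k a ρ M (e k (k+1))) : ρ = 0 := by
  apply zero_of_all (a := a)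
  intro i hi
  obtain ⟨l, rfl⟩ : ∃ l, k = l + 1 := ⟨k - 1, by omega⟩
  have e1 : (l+1)*(l+1+1) = l*(l+2) + (l+2) := by ring
  rcases exists_rep2 l (M + 1 - (l+1+1-i)) (by omega) with ⟨p, q, hpq⟩ | ⟨p, q, hpq⟩
  · apply P_reach hρ (p := p) (q := q) hi
    rw [← hpq, show l + 1 + 1 - i + (M + 1 - (l+1+1-i)) = M + 1 by omega]
    exact h1
  · apply P_reach hρ (p := p) (q := q) hi
    rw [show l + 1 + 1 - i + (p*(l+1+1) + q*(l+1+2)) = M by omega]
    exact h2

end upper

section iter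

variable {k a : ℕ}

lemma ext_of_lt (v : Fin (k+2) → ℂ) {n : ℕ} (h : n < k + 2) : ext v n = v ⟨n, h⟩ := by
  rw [ext, dif_pos h]

lemma ext_of_ge (v : Fin (k+2) → ℂ) {n : ℕ} (h : k + 2 ≤ n) : ext v n = 0 := by
  rw [ext, dif_neg (by omega)]

lemma SL_ct_iter (v : Fin (k+2) → ℂ) (hv : ∀ n, a ≤ n → ext v n = 0) (b : ℕ) (i : Fin (k+2)) :
    ((fun w => (SL k a)ᴴ *ᵥ w)^[b] v) i = ext v ((i:ℕ) + b) := by
  induction b generalizing i with
  | zero => rw [Function.iterate_zero, id, add_zero, ext_of_lt v i.2]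
  | succ b ih =>
    rw [Function.iterate_succ_apply', SL_ct_mulVec]
    by_cases h : (i:ℕ) + 1 < a
    · rw [if_pos h]
      by_cases h' : (i:ℕ) + 1 < k + 2
      · rw [ext_of_lt _ h', ih]
        congr 1
        simp only
        omega
      · rw [ext_of_ge _ (by omega), ext_of_ge _ (by omega)]
    · rw [if_neg h, hv _ (by omega)]

lemma SH_ct_iter (v : Fin (k+2) → ℂ) (b : ℕ) (i : Fin (k+2)) :
    ((fun w => (SH k a)ᴴ *ᵥ w)^[b+1] v) i
      = if (i:ℕ) + 1 < a then 0 else ext v ((i:ℕ) + (b + 1)) := by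
  induction b generalizing i with
  | zero => rw [Function.iterate_one, SH_ct_mulVec]
  | succ b ih =>
    rw [Function.iterate_succ_apply', SH_ct_mulVec]
    by_cases h : (i:ℕ) + 1 < a
    · rw [if_pos h, if_pos h]
    · rw [if_neg h, if_neg h]
      by_cases h' : (i:ℕ) + 1 < k + 2
      · rw [ext_of_lt _ h', ih, if_neg (by simp only; omega)]
        congr 1
        simp only
        omega
      · rw [ext_of_ge _ (by omega), ext_of_ge _ (by omega)]

end iter

/-- the upper bound for the index -/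
theorem T_fullRank (k a : ℕ) (ha : 2 ≤ a) : FullRankAt (T k a) ((k+1)*(k+1) + a) := by
  intro ρ hρ h0
  rw [rank_eq_iff]
  intro v hv
  by_contra hne
  apply h0
  obtain ⟨t, ht, ht'⟩ := exists_last k hne
  have ht2 := t.2
  have hext : ∀ n, (t:ℕ) < n → ext v n = 0 := by
    intro n hn
    by_cases h : n < k + 2
    · rw [ext_of_lt _ h]
      exact ht' _ (by rw [Fin.lt_def]; exact hn)
    · exact ext_of_ge _ (by omega)
  have hextt : ext v (t:ℕ) = v t := by rw [ext_of_lt _ ht2]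
  have z0 : ((0 : Fin (k+2)) : ℕ) = 0 := rfl
  have z1 : ((1 : Fin (k+2)) : ℕ) = 1 := by simp
  have e1 : (k+1)*(k+1) = k*(k+1) + (k+1) := by ring
  by_cases hta : (t:ℕ) < a
  · obtain ⟨M, hM⟩ : ∃ M, (k+1)*(k+1) + a = M + 1 + t := ⟨(k+1)*(k+1) + a - 1 - t, by omega⟩
    have hv' : P k a ρ (M + 1 + t) v := by rw [← hM]; exact hv
    have h1 := P_SL_iter hρ hv'
    have h2 : P k a ρ M (e k (k+1)) := by
      apply P_B hρ h1
      rw [SL_ct_iter v (fun n hn => hext n (by omega)), SL_ct_iter v (fun n hn => hext n (by omega)),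
        z0, z1, zero_add, hextt, hext _ (by omega), add_zero]
      exact ht
    exact zero_of_one hρ (by omega) h2
  · push Not at hta
    obtain ⟨b, hb⟩ : ∃ b, (t:ℕ) = a + b := ⟨t - a, by omega⟩
    obtain ⟨M, hM⟩ : ∃ M, (k+1)*(k+1) + a = M + 1 + t := ⟨(k+1)*(k+1) + a - 1 - t, by omega⟩
    have hv' : P k a ρ (M + 1 + (a - 1) + (b + 1)) v := by
      rw [show M + 1 + (a - 1) + (b + 1) = M + 1 + t by omega, ← hM]; exact hv
    have h1 := P_SH_iter hρ hv'
    have h2 : ((fun w => (SH k a)ᴴ *ᵥ w)^[b+1] v) = v t • e k (a-1) := by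
      ext i
      rw [SH_ct_iter]
      simp only [Pi.smul_apply, smul_eq_mul, e]
      rcases lt_trichotomy (i:ℕ) (a-1) with h | h | h
      · rw [if_pos (by omega), if_neg (by omega), mul_zero]
      · rw [if_neg (by omega), if_pos h, mul_one, ← hextt]
        congr 1
        omega
      · rw [if_neg (by omega), if_neg (by omega), mul_zero]
        exact hext _ (by omega)
    have h3 : P k a ρ (M + 1 + (a - 1)) (e k (a-1)) := by
      rw [h2] at h1
      unfold P at h1 ⊢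
      rw [Matrix.mulVec_smul, smul_eq_zero] at h1
      exact h1.resolve_left ht
    have h4 : P k a ρ (M + 1) (e k 0) := by
      apply P_e_iter hρ (j := a - 1) (by omega)
      rw [zero_add]
      exact h3
    have h5 : P k a ρ (M + 1 + 1) (e k 1) := by
      apply P_e_iter hρ (j := a - 2) (by omega)
      rw [show M + 1 + 1 + (a - 2) = M + 1 + (a - 1) by omega, show 1 + (a - 2) = a - 1 by omega]
      exact h3
    exact zero_of_two hρ (by omega) (by omega) (P_e_one hρ h5) (P_e_zero hρ h4)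

section lower

variable (k a : ℕ)

/-- the projection onto `e_0` -/
def ρ0 : Matrix (Fin (k+2)) (Fin (k+2)) ℂ := vecMulVec (e k 0) (e k 0)

lemma star_e0 : star (e k 0) = e k 0 := by
  ext i
  simp only [e, Pi.star_apply]
  split_ifs <;> simp

lemma ρ0_psd : (ρ0 k).PosSemidef := by
  have h2 := Matrix.posSemidef_vecMulVec_self_star (e k 0)
  rwa [star_e0] at h2

lemma ρ0_ne : ρ0 k ≠ 0 := by
  have : e k 0 ≠ 0 := by
    intro h
    have := congrFun h 0
    simp [e] at this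
  exact vecMulVec_ne_zero this this

lemma P_of_all {k a : ℕ} {ρ : Matrix (Fin (k+2)) (Fin (k+2)) ℂ} {n : ℕ} {v : Fin (k+2) → ℂ}
    (h1 : P k a ρ n ((SL k a)ᴴ *ᵥ v)) (h2 : P k a ρ n ((SH k a)ᴴ *ᵥ v))
    (h3 : P k a ρ n ((B k)ᴴ *ᵥ v)) : P k a ρ (n+1) v := by
  unfold P at *
  rw [Function.iterate_succ_apply']
  generalize (T k a)^[n] ρ = Y at *
  unfold T krausMap
  rw [Fin.sum_univ_three, Matrix.add_mulVec, Matrix.add_mulVec]
  simp only [K, Matrix.cons_val_zero, Matrix.cons_val_one, Matrix.cons_val_two, Matrix.tail_cons,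
    Matrix.head_cons]
  rw [← Matrix.mulVec_mulVec, ← Matrix.mulVec_mulVec, h1, ← Matrix.mulVec_mulVec,
    ← Matrix.mulVec_mulVec, h2, ← Matrix.mulVec_mulVec, ← Matrix.mulVec_mulVec, h3]
  simp

/-- vectors that are still in the kernel after `n` steps -/
lemma P_good (n : ℕ) (v : Fin (k+2) → ℂ)
    (hG : ∀ j : Fin (k+2), v j ≠ 0 → ∃ p q, k*(k+2) = n + (k+1-j) + (p*(k+1)+q*(k+2))) :
    P k a (ρ0 k) n v := by
  induction n generalizing v with
  | zero =>
    have h0 : v 0 = 0 := by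
      by_contra h
      obtain ⟨p, q, hpq⟩ := hG 0 h
      have z0 : ((0 : Fin (k+2)) : ℕ) = 0 := rfl
      rw [z0] at hpq
      have h1 : k * (k+2) = (p+1)*(k+1) + q*(k+2) := by
        have : (p+1)*(k+1) = (k+1) + p*(k+1) := by ring
        omega
      have h2 : (k+2) ∣ (p+1)*(k+1) := by
        have h3 : (k+2) ∣ (p+1)*(k+1) + q*(k+2) := ⟨k, by rw [← h1]; ring⟩
        exact (Nat.dvd_add_iff_left ⟨q, by ring⟩).2 h3
      have hco : Nat.Coprime (k+2) (k+1) := by
        rw [Nat.coprime_comm]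
        exact (Nat.coprime_self_add_right (m := k+1) (n := 1)).2 (Nat.coprime_one_right _)
      have h4 : (k+2) ∣ (p+1) := hco.dvd_of_dvd_mul_right h2
      have h5 : k + 2 ≤ p + 1 := Nat.le_of_dvd (by omega) h4
      have h6 : (k+2)*(k+1) ≤ (p+1)*(k+1) := Nat.mul_le_mul_right _ h5
      have h7 : (k+2)*(k+1) = k*(k+2) + (k + 2) := by ring
      omega
    unfold P ρ0
    rw [Function.iterate_zero, id, vecMulVec_mulVec]
    have : e k 0 ⬝ᵥ v = 0 := by
      simp only [dotProduct, e]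
      rw [Finset.sum_eq_single (0 : Fin (k+2))]
      · simp [h0]
      · intro b _ hb
        have hb' : ¬ (b:ℕ) = 0 := fun h => hb (Fin.ext h)
        rw [if_neg hb', zero_mul]
      · intro h; exact absurd (Finset.mem_univ _) h
    rw [this]
    simp
  | succ n ih =>
    apply P_of_all
    · apply ih
      intro j hj
      rw [SL_ct_mulVec] at hj
      have h1 : (j:ℕ) + 1 < a := by
        by_contra h
        rw [if_neg h] at hj
        exact hj rfl
      rw [if_pos h1] at hj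
      have h2 : (j:ℕ) + 1 < k + 2 := by
        by_contra h
        rw [ext_of_ge _ (by omega)] at hj
        exact hj rfl
      rw [ext_of_lt _ h2] at hj
      obtain ⟨p, q, hpq⟩ := hG _ hj
      refine ⟨p, q, ?_⟩
      simp only at hpq
      omega
    · apply ih
      intro j hj
      rw [SH_ct_mulVec] at hj
      have h1 : ¬ (j:ℕ) + 1 < a := by
        intro h
        rw [if_pos h] at hj
        exact hj rfl
      rw [if_neg h1] at hj
      have h2 : (j:ℕ) + 1 < k + 2 := by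
        by_contra h
        rw [ext_of_ge _ (by omega)] at hj
        exact hj rfl
      rw [ext_of_lt _ h2] at hj
      obtain ⟨p, q, hpq⟩ := hG _ hj
      refine ⟨p, q, ?_⟩
      simp only at hpq
      omega
    · apply ih
      intro j hj
      rw [B_ct_mulVec] at hj
      simp only [Pi.smul_apply, smul_eq_mul, e] at hj
      have h1 : (j:ℕ) = k + 1 := by
        by_contra h
        rw [if_neg h, mul_zero] at hj
        exact hj rfl
      have h2 : v 0 ≠ 0 ∨ v 1 ≠ 0 := by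
        by_contra h
        push Not at h
        rw [h.1, h.2] at hj
        simp at hj
      rw [h1]
      rcases h2 with h2 | h2
      · obtain ⟨p, q, hpq⟩ := hG _ h2
        refine ⟨p, q + 1, ?_⟩
        have z0 : ((0 : Fin (k+2)) : ℕ) = 0 := rfl
        rw [z0] at hpq
        have : (q+1)*(k+2) = q*(k+2) + (k+2) := by ring
        omega
      · obtain ⟨p, q, hpq⟩ := hG _ h2
        refine ⟨p + 1, q, ?_⟩
        have z1 : ((1 : Fin (k+2)) : ℕ) = 1 := by simp
        rw [z1] at hpq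
        have : (p+1)*(k+1) = p*(k+1) + (k+1) := by ring
        omega

/-- the alternating vector of length `b` -/
def w (b : ℕ) : Fin (k+2) → ℂ := fun i => if (i:ℕ) < b then (-1)^(i:ℕ) else 0

lemma ext_w {b n : ℕ} (hb : b ≤ k + 2) : ext (w k b) n = if n < b then (-1)^n else 0 := by
  by_cases h : n < k + 2
  · rw [ext_of_lt _ h]; rfl
  · rw [ext_of_ge _ (by omega), if_neg (by omega)]

lemma P_w (b : ℕ) (hb : b + 1 ≤ a) (ha : a ≤ k + 2) :
    P k a (ρ0 k) (k*(k+2) + (b+1)) (w k (b+1)) := by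
  have z0 : ((0 : Fin (k+2)) : ℕ) = 0 := rfl
  have z1 : ((1 : Fin (k+2)) : ℕ) = 1 := by simp
  have hz : ∀ n : ℕ, P k a (ρ0 k) n 0 := by
    intro n
    unfold P
    rw [Matrix.mulVec_zero]
  induction b with
  | zero =>
    apply P_of_all
    · have : (SL k a)ᴴ *ᵥ w k (0+1) = 0 := by
        ext i
        rw [SL_ct_mulVec, ext_w k (by omega), if_neg (c := (i:ℕ) + 1 < 0 + 1) (by omega)]
        simp
      rw [this]; exact hz _
    · have : (SH k a)ᴴ *ᵥ w k (0+1) = 0 := by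
        ext i
        rw [SH_ct_mulVec, ext_w k (by omega), if_neg (c := (i:ℕ) + 1 < 0 + 1) (by omega)]
        simp
      rw [this]; exact hz _
    · rw [B_ct_mulVec]
      have h := P_good k a (k*(k+2)) (e k (k+1)) (by
        intro j hj
        have h1 : (j:ℕ) = k + 1 := by
          by_contra h
          simp only [e] at hj
          rw [if_neg h] at hj
          exact hj rfl
        exact ⟨0, 0, by omega⟩)
      unfold P at h ⊢
      rw [Matrix.mulVec_smul]
      have h' : (T k a)^[k*(k+2) + 0] (ρ0 k) *ᵥ e k (k+1) = 0 := h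
      simp only [add_zero] at h' ⊢
      rw [h', smul_zero]
  | succ b ih =>
    apply P_of_all
    · have : (SL k a)ᴴ *ᵥ w k (b+1+1) = (-1 : ℂ) • w k (b+1) := by
        ext i
        rw [SL_ct_mulVec, ext_w k (by omega)]
        simp only [Pi.smul_apply, smul_eq_mul, w]
        by_cases h : (i:ℕ) < b + 1
        · rw [if_pos (by omega), if_pos (by omega), if_pos h, pow_succ]
          ring
        · rw [if_neg (c := (i:ℕ) + 1 < b + 1 + 1) (by omega), if_neg h]
          simp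
      rw [this]
      have h := ih (by omega)
      unfold P at h ⊢
      rw [Matrix.mulVec_smul]
      have h' : (T k a)^[(k*(k+2)).add (b+1)] (ρ0 k) *ᵥ w k (b+1) = 0 := h
      rw [h', smul_zero]
    · have : (SH k a)ᴴ *ᵥ w k (b+1+1) = 0 := by
        ext i
        rw [SH_ct_mulVec, ext_w k (by omega)]
        by_cases h : (i:ℕ) + 1 < a
        · rw [if_pos h]; rfl
        · rw [if_neg h, if_neg (by omega)]; rfl
      rw [this]; exact hz _
    · rw [B_ct_mulVec]
      have : w k (b+1+1) 0 + w k (b+1+1) 1 = 0 := by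
        simp only [w]
        rw [z0, z1, if_pos (by omega), if_pos (by omega)]
        norm_num
      rw [this, mul_zero, zero_smul]
      exact hz _

theorem T_not_fullRank (h2 : 2 ≤ a) (ha : a ≤ k + 2) :
    ¬ FullRankAt (T k a) (k*(k+2) + a) := by
  intro h
  have h3 := h _ (ρ0_psd k) (ρ0_ne k)
  rw [rank_eq_iff] at h3
  obtain ⟨b, rfl⟩ : ∃ b, a = b + 1 := ⟨a - 1, by omega⟩
  have h4 := h3 _ (P_w k (b+1) b le_rfl ha)
  have h5 := congrFun h4 0
  simp [w] at h5

end lower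

/-- the index of the channel `T k a` -/
theorem index_T (k a : ℕ) (h2 : 2 ≤ a) (ha : a ≤ k + 2) :
    IsPrimitive (T k a) ∧ primitivityIndex (T k a) = (k+1)*(k+1) + a := by
  have e1 : (k+1)*(k+1) + a = k*(k+2) + a + 1 := by ring
  rw [e1]
  apply primitivityIndex_eq (T_isChannel k a)
  · rw [← e1]
    exact T_fullRank k a h2
  · exact T_not_fullRank k a h2 ha

end Split

end Pool.Agent.Y792.PI
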